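import Mathlib
import Pool.Agent.FewNeg.Defs

/-!
# Compression games for monotone circuits
-/

set_option autoImplicit false

namespace Pool.Agent.CGame

open Pool.Agent.FewNeg

/-- Protocols for two players. Alice knows the input. In a round she sends the values of `T`
functions of the input to Bob, and the protocol is continued with a protocol which depends
arbitrarily on these values (and so on all messages); at the end the answer is the value of a
function, which again depends on all messages. -/
inductive Game (ι : Type) : Type
  | out (f : BF ι) : Game ι
  | round (T : ℕ) (q : Fin T → BF ι) (next : (Fin T → Bool) → Game ι) : Game ι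

/-- The answer of the protocol on the input `x`. -/
def Game.val {ι : Type} : Game ι → (ι → Bool) → Bool
  | .out f, x => f x
  | .round _ q next, x => (next fun i => q i x).val x

/-- `G.Le s d P`: all functions in the protocol `G` have monotone circuits with at most `s` gates
and depth at most `d`, and the product of the numbers `T + 1`, over the rounds of any play of the
game, is at most `P`. -/
def Game.Le {ι : Type} (s d : ℕ) : Game ι → ℕ → Prop
  | .out f, P => Computes s d 0 f ∧ 1 ≤ P
  | .round T q next, P => (∀ i, Computes s d 0 (q i)) ∧
      ∃ P' : ℕ, (T + 1) * P' ≤ P ∧ ∀ a, (next a).Le s d P'

/-- The Boolean function `f` is decided by a protocol for `Game`, where Bob knows the values of the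
variables in `S` from the beginning: all functions used by Alice have monotone circuits with at most
`s` gates and depth at most `d`, and the product of the numbers `T + 1`, over the rounds of any play
of the game, is at most `P`. -/
def Decides {n : ℕ} (S : Finset (Fin n)) (s d P : ℕ) (f : BF (Fin n)) : Prop :=
  ∃ G : (Fin n → Bool) → Game (Fin n), (∀ x y : Fin n → Bool, (∀ i ∈ S, x i = y i) → G x = G y) ∧
    (∀ x, (G x).Le s d P) ∧ ∀ x, (G x).val x = f x

end Pool.Agent.CGame
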