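import Mathlib
import Pool.Agent.CGame.Defs
import Pool.Agent.FewG.Dual
import Pool.Agent.FewNeg.LevElim

/-!
# Elimination of the messages
-/

set_option autoImplicit false

namespace Pool.Agent.CGame

open Pool.Agent.FewNeg Pool.Agent.FewG

variable {ι κ α : Type}

theorem Game.Le.mono {s d : ℕ} {G : Game ι} : ∀ {P Q : ℕ}, G.Le s d P → P ≤ Q → G.Le s d Q := by
  cases G with
  | out f => exact fun h hPQ => ⟨h.1, h.2.trans hPQ⟩
  | round T q next =>
    rintro P Q ⟨h1, P', h2, h3⟩ hPQ
    exact ⟨h1, P', h2.trans hPQ, h3⟩

theorem Game.Le.pos {s d : ℕ} {G : Game ι} : ∀ {P : ℕ}, G.Le s d P → 1 ≤ P := by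
  induction G with
  | out f => exact fun h => h.2
  | round T q next ih =>
    rintro P ⟨h1, P', h2, h3⟩
    have h4 := ih (fun _ => false) (h3 _)
    have h5 : P' ≤ (T + 1) * P' := Nat.le_mul_of_pos_left _ (Nat.succ_pos T)
    omega

theorem Game.Le.next {s d T : ℕ} {q : Fin T → BF ι} {next : (Fin T → Bool) → Game ι} {P : ℕ}
    (h : (Game.round T q next).Le s d P) (a : Fin T → Bool) : (next a).Le s d (P / (T + 1)) := by
  obtain ⟨h1, P', h2, h3⟩ := h
  refine (h3 a).mono ?_
  rw [Nat.le_div_iff_mul_le (Nat.succ_pos T), Nat.mul_comm]
  exact h2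

theorem Computes.monotone' {s d : ℕ} {f : BF ι} (h : Computes s d 0 f) : Monotone f := by
  obtain ⟨L, s', d', t', g1, g2, g3, g4, g5⟩ := h
  exact g1.monotone (by omega) _ g2

/-- The rank of a play. -/
def Game.rank : Game ι → ℕ → (ι → Bool) → ℕ
  | .out _, _, _ => 0
  | .round T q next, P, z => (Finset.univ.filter fun i => q i z = true).card * (P / (T + 1)) +
      (next fun i => q i z).rank (P / (T + 1)) z

theorem Game.rank_lt {s d : ℕ} {G : Game ι} (z : ι → Bool) : ∀ {P : ℕ}, G.Le s d P →
    G.rank P z < P := by
  induction G with
  | out f => exact fun h => h.2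
  | round T q next ih =>
    intro P h
    have h1 := ih (fun i => q i z) (h.next fun i => q i z)
    have h2 : (Finset.univ.filter fun i => q i z = true).card ≤ T := by
      refine (Finset.card_le_univ _).trans (le_of_eq ?_)
      rw [Fintype.card_fin]
    have h3 : (T + 1) * (P / (T + 1)) ≤ P := Nat.mul_div_le P (T + 1)
    rw [Game.rank]
    set Q := P / (T + 1)
    calc _ < (Finset.univ.filter fun i => q i z = true).card * Q + Q := Nat.add_lt_add_left h1 _
      _ ≤ T * Q + Q := Nat.add_le_add_right (Nat.mul_le_mul_right _ h2) _
      _ = (T + 1) * Q := by ring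
      _ ≤ P := h3

/-- The plays on two inputs have the same messages. -/
def Game.Same : Game ι → (ι → Bool) → (ι → Bool) → Prop
  | .out _, _, _ => True
  | .round _ q next, z, z' => (∀ i, q i z = q i z') ∧ (next fun i => q i z).Same z z'

theorem Game.rank_step {s d : ℕ} {G : Game ι} {z z' : ι → Bool} (hz : z ≤ z') :
    ∀ {P : ℕ}, G.Le s d P → (G.Same z z' ∧ G.rank P z = G.rank P z') ∨
      G.rank P z < G.rank P z' := by
  induction G with
  | out f => exact fun _ => Or.inl ⟨trivial, rfl⟩
  | round T q next ih =>
    intro P h
    have hmon : ∀ i, q i z ≤ q i z' := fun i => (Computes.monotone' (h.1 i)) hz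
    by_cases hs : ∀ i, q i z = q i z'
    · have e : (fun i => q i z) = fun i => q i z' := funext hs
      rw [Game.rank, Game.rank, Game.Same, ← e]
      have e2 : (Finset.univ.filter fun i => q i z = true) =
          Finset.univ.filter fun i => q i z' = true := by
        ext i
        simp [hs i]
      rw [e2]
      rcases ih (fun i => q i z) (h.next _) with ⟨h1, h2⟩ | h1
      · exact Or.inl ⟨⟨hs, h1⟩, by rw [h2]⟩
      · exact Or.inr (Nat.add_lt_add_left h1 _)
    · right
      push Not at hs
      obtain ⟨i, hi⟩ := hs
      have h1 : (Finset.univ.filter fun i => q i z = true).card <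
          (Finset.univ.filter fun i => q i z' = true).card := by
        refine Finset.card_lt_card ⟨fun j hj => ?_, fun hsub => ?_⟩
        · rw [Finset.mem_filter] at hj ⊢
          have h2 := hmon j
          rw [hj.2] at h2
          exact ⟨hj.1, Bool.eq_true_of_true_le h2⟩
        · have h2 : i ∈ Finset.univ.filter fun i => q i z' = true := by
            rw [Finset.mem_filter]
            refine ⟨Finset.mem_univ i, ?_⟩
            have h3 := hmon i
            revert hi h3
            cases q i z <;> cases q i z' <;> simp
          have h3 := (Finset.mem_filter.1 (hsub h2)).2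
          have h4 := (Finset.mem_filter.1 h2).2
          exact hi (h3.trans h4.symm)
      have h2 := Game.rank_lt z (h.next fun i => q i z)
      rw [Game.rank, Game.rank]
      set Q := P / (T + 1)
      calc _ < (Finset.univ.filter fun i => q i z = true).card * Q + Q :=
            Nat.add_lt_add_left h2 _
        _ = ((Finset.univ.filter fun i => q i z = true).card + 1) * Q := by ring
        _ ≤ (Finset.univ.filter fun i => q i z' = true).card * Q := Nat.mul_le_mul_right _ h1
        _ ≤ _ := Nat.le_add_right _ _

/-- The functions which were sent with the value `false`. -/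
def Game.zeros : Game ι → (ι → Bool) → List (BF ι)
  | .out _, _ => []
  | .round T q next, z => ((List.finRange T).map q).filter (fun h => h z = false) ++
      (next fun i => q i z).zeros z

/-- The function at the end. -/
def Game.leaf : Game ι → (ι → Bool) → BF ι
  | .out f, _ => f
  | .round _ q next, z => (next fun i => q i z).leaf z

theorem Game.zeros_length {s d : ℕ} {G : Game ι} (z : ι → Bool) : ∀ {P : ℕ}, G.Le s d P →
    (G.zeros z).length + 1 ≤ P := by
  induction G with
  | out f =>
    intro P h
    simpa [Game.zeros] using h.2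
  | round T q next ih =>
    intro P h
    have h1 := ih (fun i => q i z) (h.next fun i => q i z)
    have h2 : (((List.finRange T).map q).filter (fun h => h z = false)).length ≤ T := by
      refine (List.length_filter_le _ _).trans ?_
      simp
    have h3 : (T + 1) * (P / (T + 1)) ≤ P := Nat.mul_div_le P (T + 1)
    rw [Game.zeros, List.length_append]
    set Q := P / (T + 1)
    have h4 : T ≤ T * Q := Nat.le_mul_of_pos_right _ (by omega)
    have h5 : (T + 1) * Q = T * Q + Q := by ring
    omega

theorem Game.zeros_computes {s d : ℕ} {G : Game ι} (z : ι → Bool) : ∀ {P : ℕ}, G.Le s d P →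
    (∀ h ∈ G.zeros z, Computes s d 0 h) ∧ Computes s d 0 (G.leaf z) := by
  induction G with
  | out f => exact fun h => ⟨by simp [Game.zeros], h.1⟩
  | round T q next ih =>
    intro P h
    obtain ⟨h1, h2⟩ := ih (fun i => q i z) (h.next fun i => q i z)
    refine ⟨fun g hg => ?_, h2⟩
    rw [Game.zeros, List.mem_append] at hg
    rcases hg with hg | hg
    · obtain ⟨i, -, rfl⟩ := List.mem_map.1 (List.mem_filter.1 hg).1
      exact h.1 i
    · exact h1 g hg

theorem Game.same_of_zeros {s d : ℕ} {G : Game ι} {z x : ι → Bool} (hz : z ≤ x) :
    ∀ {P : ℕ}, G.Le s d P → (∀ h ∈ G.zeros z, h x = false) →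
      G.val x = G.leaf z x := by
  induction G with
  | out f => exact fun _ _ => rfl
  | round T q next ih =>
    intro P h h0
    have hs : ∀ i, q i z = q i x := by
      intro i
      rcases hq : q i z with _ | _
      · symm
        refine h0 _ ?_
        rw [Game.zeros, List.mem_append]
        left
        rw [List.mem_filter]
        refine ⟨List.mem_map.2 ⟨i, List.mem_finRange i, rfl⟩, ?_⟩
        simpa using hq
      · have h2 := (Computes.monotone' (h.1 i)) hz
        rw [hq] at h2
        exact (Bool.eq_true_of_true_le h2).symm
    have e : (fun i => q i x) = fun i => q i z := funext fun i => (hs i).symm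
    rw [Game.val, Game.leaf, e]
    refine ih (fun i => q i z) (h.next _) fun g hg => h0 g ?_
    rw [Game.zeros, List.mem_append]
    exact Or.inr hg

theorem Game.zeros_of_same {G : Game ι} {z x : ι → Bool} :
    G.Same z x → ∀ h ∈ G.zeros z, h x = false := by
  induction G with
  | out f => simp [Game.zeros]
  | round T q next ih =>
    rintro ⟨h1, h2⟩ g hg
    rw [Game.zeros, List.mem_append] at hg
    rcases hg with hg | hg
    · obtain ⟨hg1, hg2⟩ := List.mem_filter.1 hg
      obtain ⟨i, -, rfl⟩ := List.mem_map.1 hg1
      rw [← h1 i]
      simpa using hg2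
    · exact ih _ h2 g hg

/-- The OR of a list of functions. -/
theorem computes_or_list {s d : ℕ} (l : List (BF ι)) (hl : ∀ h ∈ l, Computes s d 0 h) {F : BF ι}
    (hF : ∀ u, F u = true ↔ ∃ h ∈ l, h u = true) :
    Computes (l.length * (s + 1)) (d + Nat.clog 2 (l.length + 1)) 0 F := by
  have h1 := computes_or (Y := Fin l.length) (h := fun i => l.get i) (s := s) (d := d)
    Finset.univ (fun i _ => hl _ (List.get_mem l i)) (F := F) (fun u => by
      rw [hF u]
      constructor
      · rintro ⟨h, hh, hu⟩
        obtain ⟨i, hi⟩ := List.get_of_mem hh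
        exact ⟨i, Finset.mem_univ i, by rw [hi]; exact hu⟩
      · rintro ⟨i, -, hu⟩
        exact ⟨_, List.get_mem l i, hu⟩)
  rwa [Finset.card_univ, Fintype.card_fin] at h1

/-- **A protocol for an OR of copies of `F` gives a monotone circuit for `F`.** -/
theorem Game.mono_of_copies [DecidableEq α] {F : BF ι} (hF0 : F (fun _ => false) = false)
    (A : Finset α) {G : Game (α × ι)} {s d P : ℕ} (h : G.Le s d P)
    (hf : ∀ y, G.val y = orC A F y) (hP : P ≤ A.card) :
    Computes (P * (s + 1)) (d + Nat.clog 2 (P + 1)) 0 F := by
  classical
  -- a good input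
  have hgood : ∃ a ∈ A, ∃ z : α × ι → Bool, (∀ i, z (a, i) = false) ∧
      (∀ b ∈ A, F (fun i => z (b, i)) = false) ∧
      ∀ w, F w = false → G.Same z (upd z a w) := by
    by_contra hcon
    push Not at hcon
    have key : ∀ B : Finset α, B ⊆ A → ∃ z : α × ι → Bool, (∀ b, b ∉ B → ∀ i, z (b, i) = false) ∧
        (∀ b ∈ A, F (fun i => z (b, i)) = false) ∧ B.card ≤ G.rank P z := by
      intro B
      induction B using Finset.induction_on with
      | empty => exact fun _ => ⟨fun _ => false, fun _ _ _ => rfl, fun _ _ => hF0, by simp⟩
      | insert a B ha ih =>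
        intro hB
        obtain ⟨z, h1, h2, h3⟩ := ih ((Finset.subset_insert a B).trans hB)
        have haA : a ∈ A := hB (Finset.mem_insert_self a B)
        obtain ⟨w, hw, hne⟩ := hcon a haA z (h1 a ha) h2
        have hle : z ≤ upd z a w := by
          rintro ⟨b, i⟩
          unfold upd
          split_ifs with hb
          · simp only at hb
            rw [hb, h1 a ha i]
            exact Bool.false_le _
          · exact le_rfl
        refine ⟨upd z a w, ?_, ?_, ?_⟩
        · intro b hb i
          rw [Finset.mem_insert, not_or] at hb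
          simp only [upd]
          rw [if_neg hb.1]
          exact h1 b hb.2 i
        · intro b hb
          by_cases hba : b = a
          · have : (fun i => upd z a w (b, i)) = w := by
              funext i
              simp [upd, hba]
            rw [this, hw]
          · have : (fun i => upd z a w (b, i)) = fun i => z (b, i) := by
              funext i
              simp [upd, hba]
            rw [this, h2 b hb]
        · rw [Finset.card_insert_of_notMem ha]
          rcases Game.rank_step hle h with ⟨h4, -⟩ | h4
          · exact absurd h4 hne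
          · omega
    obtain ⟨z, -, -, h3⟩ := key A (Finset.Subset.refl A)
    have h4 := Game.rank_lt z h
    omega
  obtain ⟨a, haA, z, hz0, hzA, hgood⟩ := hgood
  have hle : ∀ w, z ≤ upd z a w := by
    rintro w ⟨b, i⟩
    unfold upd
    split_ifs with hb
    · simp only at hb
      rw [hb, hz0 i]
      exact Bool.false_le _
    · exact le_rfl
  have hor : ∀ y, orC A F (upd z a y) = F y := by
    intro y
    have e1 : ∀ b, b ≠ a → (fun i => upd z a y (b, i)) = fun i => z (b, i) := by
      intro b hb
      funext i
      simp [upd, hb]
    have e2 : (fun i => upd z a y (a, i)) = y := by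
      funext i
      simp [upd]
    unfold orC
    rcases hFy : F y with _ | _
    · rw [decide_eq_false_iff_not]
      rintro ⟨b, hb, h1⟩
      by_cases hba : b = a
      · rw [hba, e2, hFy] at h1
        exact Bool.noConfusion h1
      · rw [e1 b hba, hzA b hb] at h1
        exact Bool.noConfusion h1
    · rw [decide_eq_true_iff]
      exact ⟨a, haA, by rw [e2]; exact hFy⟩
  obtain ⟨c1, c2⟩ := Game.zeros_computes z h
  have hsub : ∀ {g : BF (α × ι)}, Computes s d 0 g → Computes s d 0 (fun y => g (upd z a y)) := by
    intro g hg
    refine hg.subst (fun p => if p.1 = a then Sum.inl p.2 else Sum.inr (z p)) ?_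
    intro u
    have : (upd z a u) = fun p => Sum.elim u id
        ((if p.1 = a then Sum.inl p.2 else Sum.inr (z p)) : ι ⊕ Bool) := by
      funext p
      simp only [upd]
      split_ifs <;> rfl
    rw [this]
  have hlen := Game.zeros_length z h
  refine (computes_or_list (s := s) (d := d) (F := F)
    ((G.leaf z :: G.zeros z).map fun g y => g (upd z a y)) ?_ ?_).mono ?_ ?_ le_rfl
  · intro g hg
    obtain ⟨g', hg', rfl⟩ := List.mem_map.1 hg
    rcases List.mem_cons.1 hg' with rfl | hg'
    · exact hsub c2
    · exact hsub (c1 g' hg')
  · intro u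
    constructor
    · intro hu
      by_contra hcon
      push Not at hcon
      have h0 : ∀ g ∈ G.zeros z, g (upd z a u) = false := by
        intro g hg
        have := hcon _ (List.mem_map.2 ⟨g, List.mem_cons_of_mem _ hg, rfl⟩)
        simpa using this
      have h1 := Game.same_of_zeros (hle u) h h0
      have h2 := hcon _ (List.mem_map.2 ⟨G.leaf z, List.mem_cons_self, rfl⟩)
      rw [hf, hor, hu] at h1
      exact h2 h1.symm
    · rintro ⟨g, hg, hu⟩
      by_contra hFu
      rw [Bool.not_eq_true] at hFu
      have h0 := Game.zeros_of_same (hgood u hFu)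
      obtain ⟨g', hg', rfl⟩ := List.mem_map.1 hg
      simp only at hu
      rcases List.mem_cons.1 hg' with rfl | hg'
      · have h1 := Game.same_of_zeros (hle u) h h0
        rw [hf, hor, hFu] at h1
        rw [← h1] at hu
        exact Bool.noConfusion hu
      · rw [h0 g' hg'] at hu
        exact Bool.noConfusion hu
  · rw [List.length_map, List.length_cons]
    exact Nat.mul_le_mul_right _ hlen
  · rw [List.length_map, List.length_cons]
    exact Nat.add_le_add_left (Nat.clog_mono_right 2 (by omega)) d

end Pool.Agent.CGame
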