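import Mathlib
import Pool.Agent.CGame.Elim
import Pool.Agent.FewG.Sub

/-!
# Protocols for block languages
-/

set_option autoImplicit false

namespace Pool.Agent.CGame

open Pool.Agent.FewNeg Pool.Agent.FewG

variable {ι κ : Type}

/-- Substitution of variables or constants for the variables. -/
def Game.sub (σ : ι → κ ⊕ Bool) : Game ι → Game κ
  | .out f => .out fun y => f fun i => Sum.elim y id (σ i)
  | .round T q next => .round T (fun j y => q j fun i => Sum.elim y id (σ i))
      fun a => (next a).sub σ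

theorem Game.sub_val (σ : ι → κ ⊕ Bool) (G : Game ι) (y : κ → Bool) :
    (G.sub σ).val y = G.val fun i => Sum.elim y id (σ i) := by
  induction G with
  | out f => rfl
  | round T q next ih =>
    rw [Game.sub, Game.val, Game.val]
    exact ih _

theorem Game.Le.sub {s d : ℕ} (σ : ι → κ ⊕ Bool) {G : Game ι} : ∀ {P : ℕ}, G.Le s d P →
    (G.sub σ).Le s d P := by
  induction G with
  | out f => exact fun h => ⟨h.1.subst σ fun _ => rfl, h.2⟩
  | round T q next ih =>
    rintro P ⟨h1, P', h2, h3⟩
    exact ⟨fun i => (h1 i).subst σ fun _ => rfl, P', h2, fun a => ih a (h3 a)⟩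

/-- A protocol for a language with a slice which contains an OR of `P` copies of `F` gives a
monotone circuit for `F`. -/
theorem Decides.lower {L : Set (List Bool)} {n N : ℕ} {F : BF κ}
    (hF0 : F (fun _ => false) = false) {S : Finset (Fin n)} {B : Finset (Fin N)}
    {σ : Fin n → (Fin N × κ) ⊕ Bool} (hσ : ∀ p ∈ S, σ p = Sum.inr false)
    (hL : ∀ y : Fin N × κ → Bool, slice L n (fun p => Sum.elim y id (σ p)) = orC B F y)
    {s d P : ℕ} (h : Decides S s d P (slice L n)) (hP : P ≤ B.card) :
    Computes (P * (s + 1)) (d + Nat.clog 2 (P + 1)) 0 F := by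
  obtain ⟨G, h1, h2, h3⟩ := h
  set x₀ : Fin n → Bool := fun p => Sum.elim (fun _ : Fin N × κ => false) id (σ p) with hx₀
  refine Game.mono_of_copies hF0 B ((h2 x₀).sub σ) (fun y => ?_) hP
  rw [Game.sub_val, ← hL, ← h3]
  congr 1
  refine h1 _ _ fun i hi => ?_
  rw [hx₀]
  simp only [hσ i hi]
  rfl

end Pool.Agent.CGame
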