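import Mathlib
import Pool.Agent.CGame.Defs
import Pool.Agent.FewNeg.LevPot

/-!
# Circuits with NOT gates on several levels give protocols
-/

set_option autoImplicit false

namespace Pool.Agent.CGame

open Pool.Agent.FewNeg

variable {ι : Type}

theorem SLPX.prune {L : List (BF ι × ℕ × ℕ)} {s : ℕ} {ns : List (BF ι × ℕ)} (h : SLPX L s ns)
    (D : ℕ) : ∃ s' ≤ s, ∃ ns' : List (BF ι × ℕ), ns'.Sublist ns ∧
      SLPX (L.filter fun p => decide (p.2.1 ≤ D)) s' ns' := by
  induction h with
  | nil => exact ⟨0, le_rfl, [], List.Sublist.refl _, SLPX.nil⟩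
  | @var L s ns i _ ih =>
    obtain ⟨s', hs, ns', hn, h1⟩ := ih
    refine ⟨s', hs, ns', hn, ?_⟩
    rw [List.filter_cons_of_pos (by simp)]
    exact SLPX.var i h1
  | @const L s ns b _ ih =>
    obtain ⟨s', hs, ns', hn, h1⟩ := ih
    refine ⟨s', hs, ns', hn, ?_⟩
    rw [List.filter_cons_of_pos (by simp)]
    exact SLPX.const b h1
  | @and L s ns f g d e q r _ hf hg ih =>
    obtain ⟨s', hs, ns', hn, h1⟩ := ih
    by_cases hD : max d e + 1 ≤ D
    · refine ⟨s' + 1, by omega, ns', hn, ?_⟩
      rw [List.filter_cons_of_pos (by simpa using hD)]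
      refine SLPX.and h1 ?_ ?_
      · rw [List.mem_filter]; exact ⟨hf, by simp only [decide_eq_true_eq]; omega⟩
      · rw [List.mem_filter]; exact ⟨hg, by simp only [decide_eq_true_eq]; omega⟩
    · refine ⟨s', by omega, ns', hn, ?_⟩
      rw [List.filter_cons_of_neg (by simpa using hD)]
      exact h1
  | @or L s ns f g d e q r _ hf hg ih =>
    obtain ⟨s', hs, ns', hn, h1⟩ := ih
    by_cases hD : max d e + 1 ≤ D
    · refine ⟨s' + 1, by omega, ns', hn, ?_⟩
      rw [List.filter_cons_of_pos (by simpa using hD)]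
      refine SLPX.or h1 ?_ ?_
      · rw [List.mem_filter]; exact ⟨hf, by simp only [decide_eq_true_eq]; omega⟩
      · rw [List.mem_filter]; exact ⟨hg, by simp only [decide_eq_true_eq]; omega⟩
    · refine ⟨s', by omega, ns', hn, ?_⟩
      rw [List.filter_cons_of_neg (by simpa using hD)]
      exact h1
  | @not L s ns f d r _ hf ih =>
    obtain ⟨s', hs, ns', hn, h1⟩ := ih
    by_cases hD : d ≤ D
    · refine ⟨s', hs, (f, r + 1) :: ns', hn.cons_cons _, ?_⟩
      rw [List.filter_cons_of_pos (by simpa using hD)]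
      refine SLPX.not h1 ?_
      rw [List.mem_filter]; exact ⟨hf, by simpa using hD⟩
    · refine ⟨s', hs, ns', hn.cons _, ?_⟩
      rw [List.filter_cons_of_neg (by simpa using hD)]
      exact h1

/-- The answers `ν` are right for the NOT gates of level less than `r`. -/
def Agree (ns : List (BF ι × ℕ)) (ν : ℕ → Bool) (r : ℕ) (x : ι → Bool) : Prop :=
  ∀ (j : ℕ) (k : BF ι × ℕ), ns.reverse[j]? = some k → k.2 < r → ν j = k.1 x

theorem getElem?_reverse_cons {α : Type} {l : List α} {a k : α} {j : ℕ}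
    (h : l.reverse[j]? = some k) : (a :: l).reverse[j]? = some k := by
  rw [List.reverse_cons, List.getElem?_append_left]
  · exact h
  · exact (List.getElem?_eq_some_iff.1 h).1

theorem Agree.tail {ns : List (BF ι × ℕ)} {a : BF ι × ℕ} {ν : ℕ → Bool} {r : ℕ} {x : ι → Bool}
    (h : Agree (a :: ns) ν r x) : Agree ns ν r x := fun j k hj hk =>
  h j k (getElem?_reverse_cons hj) hk

theorem Agree.mono {ns : List (BF ι × ℕ)} {ν : ℕ → Bool} {r r' : ℕ} {x : ι → Bool}
    (h : Agree ns ν r x) (hr : r' ≤ r) : Agree ns ν r' x := fun j k hj hk =>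
  h j k hj (hk.trans_le hr)

/-- The circuit with the NOT gates replaced by constants. -/
theorem SLPX.fixed {L : List (BF ι × ℕ × ℕ)} {s : ℕ} {ns : List (BF ι × ℕ)} (h : SLPX L s ns)
    (ν : ℕ → Bool) : ∃ (L' : List (BF ι × ℕ)) (s' : ℕ), SLP L' s' 0 ∧ s' ≤ s ∧
      (∀ p ∈ L, ∃ q ∈ L', q.2 ≤ p.2.1 ∧ ∀ x, Agree ns ν (p.2.2 + 1) x → q.1 x = p.1 x) ∧
      (∀ (j : ℕ) (k : BF ι × ℕ), ns.reverse[j]? = some k → ∃ q ∈ L', ∃ p ∈ L, q.2 ≤ p.2.1 ∧
        ∀ x, Agree ns ν k.2 x → q.1 x = k.1 x) := by
  induction h with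
  | nil => exact ⟨[], 0, SLP.nil, le_rfl, by simp, by simp⟩
  | @var L s ns i _ ih =>
    obtain ⟨L', s', h1, h2, h3, h4⟩ := ih
    refine ⟨_, s', SLP.var i h1, h2, fun p hp => ?_, fun j k hj => ?_⟩
    · rcases List.mem_cons.1 hp with rfl | hp
      · exact ⟨_, List.mem_cons_self, le_rfl, fun x _ => rfl⟩
      · obtain ⟨q, hq, h5⟩ := h3 p hp
        exact ⟨q, List.mem_cons_of_mem _ hq, h5⟩
    · obtain ⟨q, hq, p, hp, h5⟩ := h4 j k hj
      exact ⟨q, List.mem_cons_of_mem _ hq, p, List.mem_cons_of_mem _ hp, h5⟩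
  | @const L s ns b _ ih =>
    obtain ⟨L', s', h1, h2, h3, h4⟩ := ih
    refine ⟨_, s', SLP.const b h1, h2, fun p hp => ?_, fun j k hj => ?_⟩
    · rcases List.mem_cons.1 hp with rfl | hp
      · exact ⟨_, List.mem_cons_self, le_rfl, fun x _ => rfl⟩
      · obtain ⟨q, hq, h5⟩ := h3 p hp
        exact ⟨q, List.mem_cons_of_mem _ hq, h5⟩
    · obtain ⟨q, hq, p, hp, h5⟩ := h4 j k hj
      exact ⟨q, List.mem_cons_of_mem _ hq, p, List.mem_cons_of_mem _ hp, h5⟩
  | @and L s ns f g d e q r _ hf hg ih =>
    obtain ⟨L', s', h1, h2, h3, h4⟩ := ih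
    obtain ⟨⟨f', d'⟩, hf', hd', e1⟩ := h3 _ hf
    obtain ⟨⟨g', e'⟩, hg', he', e2⟩ := h3 _ hg
    refine ⟨_, s' + 1, SLP.and h1 hf' hg', by omega, fun p hp => ?_, fun j k hj => ?_⟩
    · rcases List.mem_cons.1 hp with rfl | hp
      · refine ⟨_, List.mem_cons_self, ?_, fun x hx => ?_⟩
        · simp only at hd' he' ⊢
          omega
        · simp only at e1 e2 hx ⊢
          rw [e1 x (hx.mono (by omega)), e2 x (hx.mono (by omega))]
      · obtain ⟨q, hq, h5⟩ := h3 p hp
        exact ⟨q, List.mem_cons_of_mem _ hq, h5⟩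
    · obtain ⟨q, hq, p, hp, h5⟩ := h4 j k hj
      exact ⟨q, List.mem_cons_of_mem _ hq, p, List.mem_cons_of_mem _ hp, h5⟩
  | @or L s ns f g d e q r _ hf hg ih =>
    obtain ⟨L', s', h1, h2, h3, h4⟩ := ih
    obtain ⟨⟨f', d'⟩, hf', hd', e1⟩ := h3 _ hf
    obtain ⟨⟨g', e'⟩, hg', he', e2⟩ := h3 _ hg
    refine ⟨_, s' + 1, SLP.or h1 hf' hg', by omega, fun p hp => ?_, fun j k hj => ?_⟩
    · rcases List.mem_cons.1 hp with rfl | hp
      · refine ⟨_, List.mem_cons_self, ?_, fun x hx => ?_⟩
        · simp only at hd' he' ⊢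
          omega
        · simp only at e1 e2 hx ⊢
          rw [e1 x (hx.mono (by omega)), e2 x (hx.mono (by omega))]
      · obtain ⟨q, hq, h5⟩ := h3 p hp
        exact ⟨q, List.mem_cons_of_mem _ hq, h5⟩
    · obtain ⟨q, hq, p, hp, h5⟩ := h4 j k hj
      exact ⟨q, List.mem_cons_of_mem _ hq, p, List.mem_cons_of_mem _ hp, h5⟩
  | @not L s ns f d r _ hf ih =>
    obtain ⟨L', s', h1, h2, h3, h4⟩ := ih
    obtain ⟨⟨f', d'⟩, hf', hd', e1⟩ := h3 _ hf
    have hnew : ((f, r + 1) :: ns).reverse[ns.length]? = some (f, r + 1) := by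
      rw [List.reverse_cons, List.getElem?_append_right (by simp)]
      simp
    refine ⟨_, s', SLP.const (!(ν ns.length)) h1, h2, fun p hp => ?_, fun j k hj => ?_⟩
    · rcases List.mem_cons.1 hp with rfl | hp
      · refine ⟨_, List.mem_cons_self, Nat.zero_le _, fun x hx => ?_⟩
        have := hx ns.length (f, r + 1) hnew (by simp only; omega)
        simp only at this ⊢
        rw [this]
      · obtain ⟨q, hq, h5, h6⟩ := h3 p hp
        exact ⟨q, List.mem_cons_of_mem _ hq, h5, fun x hx => h6 x hx.tail⟩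
    · rcases Nat.lt_or_ge j ns.length with hlt | hge
      · have hj' : ns.reverse[j]? = some k := by
          rw [List.reverse_cons, List.getElem?_append_left (by simpa using hlt)] at hj
          exact hj
        obtain ⟨q, hq, p, hp, h5, h6⟩ := h4 j k hj'
        exact ⟨q, List.mem_cons_of_mem _ hq, p, List.mem_cons_of_mem _ hp, h5,
          fun x hx => h6 x hx.tail⟩
      · have hk : k = (f, r + 1) := by
          have hj2 := (List.getElem?_eq_some_iff.1 hj).1
          rw [List.length_reverse, List.length_cons] at hj2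
          have : j = ns.length := by omega
          rw [this, hnew] at hj
          exact (Option.some.inj hj).symm
        subst hk
        refine ⟨(f', d'), List.mem_cons_of_mem _ hf', (f, d, r), List.mem_cons_of_mem _ hf, hd',
          fun x hx => e1 x hx.tail⟩

theorem card_filter_get {α : Type} (l : List α) (p : α → Bool) :
    (Finset.univ.filter fun j : Fin l.length => p (l.get j) = true).card = l.countP p := by
  induction l with
  | nil => simp
  | cons a l ih =>
    rw [List.countP_cons, ← ih]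
    have h : (Finset.univ.filter fun j : Fin (a :: l).length => p ((a :: l).get j) = true) =
        (if p a = true then {(0 : Fin (l.length + 1))} else ∅) ∪
          (Finset.univ.filter fun j : Fin l.length => p (l.get j) = true).map
            ⟨Fin.succ, Fin.succ_injective _⟩ := by
      ext j
      rw [Finset.mem_union, Finset.mem_map]
      refine Fin.cases ?_ (fun i => ?_) j
      · by_cases hp : p a = true
        · simp [hp]
        · simp [hp]
      · by_cases hp : p a = true
        · simp [hp]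
        · simp [hp]
    rw [h, Finset.card_union_of_disjoint, Finset.card_map]
    · by_cases hp : p a = true
      · simp [hp, Nat.add_comm]
      · simp [hp]
    · rw [Finset.disjoint_left]
      intro j h1 h2
      by_cases hp : p a = true
      · rw [if_pos hp, Finset.mem_singleton] at h1
        subst h1
        simp at h2
      · rw [if_neg hp] at h1
        simp at h1

theorem levelProd_mono {N N' : List ℕ} (h : N'.Sublist N) : levelProd N' ≤ levelProd N := by
  unfold levelProd
  calc ∏ i ∈ N'.toFinset, (N'.count i + 1) ≤ ∏ i ∈ N'.toFinset, (N.count i + 1) :=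
        Finset.prod_le_prod' fun i _ => Nat.add_le_add_right (h.count_le i) 1
    _ ≤ _ := by
      refine Finset.prod_le_prod_of_subset_of_one_le' (fun i hi => ?_) fun i _ _ => by omega
      rw [List.mem_toFinset] at hi ⊢
      exact h.subset hi

/-- A circuit with NOT gates gives a protocol in which the inputs of the NOT gates are sent, level
by level. -/
theorem SLPX.exists_game {L : List (BF ι × ℕ × ℕ)} {s : ℕ} {ns : List (BF ι × ℕ)}
    (h : SLPX L s ns) {D : ℕ} (hD : ∀ p ∈ L, p.2.1 ≤ D) {f : BF ι} {d₀ r₀ : ℕ}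
    (hf : (f, d₀, r₀) ∈ L) :
    ∃ G : Game ι, G.Le s D (levelProd (ns.map Prod.snd)) ∧ ∀ x, G.val x = f x := by
  classical
  have hA : ∀ ν : ℕ → Bool, ∃ (Fo : BF ι) (Q : ℕ → BF ι), Computes s D 0 Fo ∧
      (∀ j, j < ns.length → Computes s D 0 (Q j)) ∧ (∀ x, Agree ns ν (r₀ + 1) x → Fo x = f x) ∧
      (∀ (j : ℕ) (k : BF ι × ℕ), ns.reverse[j]? = some k → ∀ x, Agree ns ν k.2 x →
        Q j x = k.1 x) := by
    intro ν
    obtain ⟨L', s', h1, h2, h3, h4⟩ := SLPX.fixed h ν
    obtain ⟨⟨Fo, e⟩, hq, h5, h6⟩ := h3 _ hf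
    have h7 : ∀ j : ℕ, ∃ Qj : BF ι, (j < ns.length → Computes s D 0 Qj) ∧
        ∀ k : BF ι × ℕ, ns.reverse[j]? = some k → ∀ x, Agree ns ν k.2 x → Qj x = k.1 x := by
      intro j
      by_cases hj : j < ns.length
      · have hj' : ns.reverse[j]? = some (ns.reverse[j]'(by simpa using hj)) :=
          List.getElem?_eq_getElem (by simpa using hj)
        obtain ⟨⟨Qj, e'⟩, hq', p, hp, h8, h9⟩ := h4 j _ hj'
        refine ⟨Qj, fun _ => ⟨L', s', e', 0, h1, hq', h2, h8.trans (hD p hp), le_rfl⟩, ?_⟩
        intro k hk x hx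
        rw [hj'] at hk
        have := Option.some.inj hk
        subst this
        exact h9 x hx
      · refine ⟨fun _ => false, fun hj' => absurd hj' hj, fun k hk => ?_⟩
        have := (List.getElem?_eq_some_iff.1 hk).1
        rw [List.length_reverse] at this
        exact absurd this hj
    choose Q hQ1 hQ2 using h7
    exact ⟨Fo, Q, ⟨L', s', e, 0, h1, hq, h2, h5.trans (hD _ hf), le_rfl⟩, hQ1, h6, hQ2⟩
  choose Fo Q h1 h2 h3 h4 using hA
  obtain ⟨R, hR⟩ : ∃ R, ∀ k ∈ ns, k.2 < R := by
    refine ⟨(ns.map Prod.snd).sum + 1, fun k hk => ?_⟩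
    have := List.le_sum_of_mem (List.mem_map.2 ⟨k, hk, rfl⟩ : k.2 ∈ ns.map Prod.snd)
    omega
  have key : ∀ (t r : ℕ) (ν : ℕ → Bool), r₀ + 1 ≤ r + t →
      ∃ G : Game ι, G.Le s D (∏ i ∈ Finset.range t, (cap ns (r + i) + 1)) ∧
        ∀ x, Agree ns ν r x → G.val x = f x := by
    intro t
    induction t with
    | zero =>
      intro r ν hr
      exact ⟨.out (Fo ν), ⟨h1 ν, by simp⟩, fun x hx => h3 ν x (hx.mono (by omega))⟩
    | succ t ih =>
      intro r ν hr
      set J : Finset (Fin ns.reverse.length) :=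
        Finset.univ.filter fun j => (decide ((ns.reverse.get j).2 = r)) = true with hJ
      have hJc : J.card = cap ns r := by
        rw [hJ, card_filter_get ns.reverse (fun k => decide (k.2 = r)), List.countP_reverse]
        rfl
      set e := J.equivFin with he
      have hnext : ∀ a : Fin J.card → Bool, ∃ G : Game ι,
          G.Le s D (∏ i ∈ Finset.range t, (cap ns (r + 1 + i) + 1)) ∧
          ∀ x, Agree ns (fun j => if hj : ∃ hj : j < ns.reverse.length,
            (⟨j, hj⟩ : Fin ns.reverse.length) ∈ J then a (e ⟨⟨j, hj.1⟩, hj.2⟩) else ν j)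
            (r + 1) x → G.val x = f x :=
        fun a => ih (r + 1) _ (by omega)
      choose Gn g1 g2 using hnext
      refine ⟨.round J.card (fun i => Q ν (e.symm i).1.val) Gn, ⟨fun i => ?_, _, ?_, g1⟩,
        fun x hx => ?_⟩
      · refine h2 ν _ ?_
        exact lt_of_lt_of_eq (e.symm i).1.2 List.length_reverse
      · rw [Finset.prod_range_succ', hJc, Nat.mul_comm, Nat.add_zero]
        refine le_of_eq ?_
        congr 1
        refine Finset.prod_congr rfl fun i _ => ?_
        rw [show r + 1 + i = r + (i + 1) by ring]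
      · rw [Game.val]
        refine g2 _ x fun j k hj hk => ?_
        have hjl : j < ns.reverse.length := (List.getElem?_eq_some_iff.1 hj).1
        have hget : ns.reverse.get ⟨j, hjl⟩ = k := (List.getElem?_eq_some_iff.1 hj).2
        by_cases hkr : k.2 = r
        · have hmem : (⟨j, hjl⟩ : Fin ns.reverse.length) ∈ J := by
            rw [hJ, Finset.mem_filter]
            exact ⟨Finset.mem_univ _, by rw [hget]; simpa using hkr⟩
          beta_reduce
          rw [dif_pos ⟨hjl, hmem⟩]
          simp only [Equiv.symm_apply_apply]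
          exact h4 ν j k hj x (by rw [hkr]; exact hx)
        · have hmem : ¬ ∃ hj : j < ns.reverse.length, (⟨j, hj⟩ : Fin ns.reverse.length) ∈ J := by
            rintro ⟨hj', hJ'⟩
            rw [hJ, Finset.mem_filter] at hJ'
            have h5 := hJ'.2
            rw [hget] at h5
            exact hkr (by simpa using h5)
          beta_reduce
          rw [dif_neg hmem]
          exact hx j k hj (by omega)
  obtain ⟨G, g1, g2⟩ := key (R + (r₀ + 1)) 0 (fun _ => false) (by omega)
  refine ⟨G, ?_, fun x => g2 x fun j k _ hk => absurd hk (Nat.not_lt_zero _)⟩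
  have e1 : ∏ i ∈ Finset.range (R + (r₀ + 1)), (cap ns (0 + i) + 1) =
      levelProd (ns.map Prod.snd) := by
    rw [← levelProd_eq ns (R := R + (r₀ + 1)) fun k hk => (hR k hk).trans_le (Nat.le_add_right _ _)]
    refine Finset.prod_congr rfl fun i _ => ?_
    rw [Nat.zero_add]
  rw [← e1]
  exact g1

/-- **Circuits with `T₁, T₂, ...` NOT gates on the levels `1, 2, ...` are a special case of
protocols with messages of `T₁, T₂, ...` bits.** -/
theorem ComputesL.decides {n : ℕ} {S : Finset (Fin n)} {s d P : ℕ} {f : BF (Fin n)}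
    (h : ComputesL S s d P f) : Decides S s d P f := by
  classical
  obtain ⟨L, s', N, d', r, h1, h2, h3, h4, h5⟩ := h
  have hG : ∀ a : Fin n → Bool, ∃ G : Game (Fin n), G.Le s d P ∧
      ∀ x : Fin n → Bool, (∀ i ∈ S, x i = a i) → G.val x = f x := by
    intro a
    obtain ⟨ns, h6, h7⟩ := h1.toX (κ := Fin n)
      (fun i => if i ∈ S then Sum.inr (a i) else Sum.inl i) (fun i hi => ⟨a i, if_pos hi⟩)
    obtain ⟨s'', hs'', ns', hns', h8⟩ := SLPX.prune h6 d
    have hmem : (((fun y => f (fun i => Sum.elim y id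
        ((if i ∈ S then Sum.inr (a i) else Sum.inl i : Fin n ⊕ Bool)))) : BF (Fin n)), d', r) ∈
        (L.map fun p => ((fun y => p.1 (fun i => Sum.elim y id
          ((if i ∈ S then Sum.inr (a i) else Sum.inl i : Fin n ⊕ Bool))) : BF (Fin n)),
          p.2)).filter fun p => decide (p.2.1 ≤ d) := by
      rw [List.mem_filter]
      exact ⟨List.mem_map.2 ⟨_, h2, rfl⟩, by simpa using h4⟩
    obtain ⟨G, g1, g2⟩ := SLPX.exists_game h8 (D := d) (fun p hp => by
      have := (List.mem_filter.1 hp).2
      simpa using this) hmem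
    refine ⟨G, ?_, fun x hx => ?_⟩
    · have hP : levelProd (ns'.map Prod.snd) ≤ P := by
        refine (levelProd_mono (hns'.map Prod.snd)).trans ?_
        rw [h7]
        exact h5
      have hle : ∀ {G : Game (Fin n)} {P : ℕ}, G.Le s'' d P → G.Le s d P := by
        intro G
        induction G with
        | out f => exact fun h => ⟨h.1.mono (by omega) le_rfl le_rfl, h.2⟩
        | round T q next ih =>
          rintro P ⟨k1, P', k2, k3⟩
          exact ⟨fun i => (k1 i).mono (by omega) le_rfl le_rfl, P', k2, fun a => ih a (k3 a)⟩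
      have g3 := hle g1
      revert g3
      cases G with
      | out f => exact fun h => ⟨h.1, h.2.trans hP⟩
      | round T q next =>
        rintro ⟨k1, P', k2, k3⟩
        exact ⟨k1, P', k2.trans hP, k3⟩
    · rw [g2 x]
      congr 1
      funext i
      by_cases hi : i ∈ S
      · simp [hi, hx i hi]
      · simp [hi]
  choose G g1 g2 using hG
  refine ⟨fun x => G fun i => if i ∈ S then x i else false, fun x y hxy => ?_, fun x => g1 _,
    fun x => g2 _ x fun i hi => by rw [if_pos hi]⟩
  have he : (fun i => if i ∈ S then x i else false) = fun i => if i ∈ S then y i else false := by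
    funext i
    by_cases hi : i ∈ S
    · rw [if_pos hi, if_pos hi, hxy i hi]
    · rw [if_neg hi, if_neg hi]
  beta_reduce
  rw [he]

end Pool.Agent.CGame
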