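import Mathlib
import Pool.Agent.FewNeg.LDepth
import Pool.Agent.FewNeg.TADefs
import Pool.Agent.CGame.Block

/-!
# A monotone language in P which is incompressible by monotone circuits of small depth
-/

set_option autoImplicit false

namespace Pool.Agent.CGame

open Pool.Agent.FewNeg Pool.Agent.FewG

theorem clog_succ_le (P : ℕ) : Nat.clog 2 (P + 1) ≤ Nat.log 2 P + 1 :=
  (Nat.clog_le_iff_le_pow (by norm_num)).2 (Nat.lt_pow_succ_log_self (by norm_num) _)

theorem LTA_game (n : ℕ) (S : Finset (Fin n)) (s d P : ℕ) (h : Decides S s d P (slice LTA n)) :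
    n ≤ 2 ^ 156 * (Nat.log 2 n + 1) * (P + S.card) * (d + Nat.log 2 P + 2) ^ 33 := by
  by_contra hcon
  push Not at hcon
  have hP1 : 1 ≤ P := by
    obtain ⟨G, -, h2, -⟩ := h
    exact (h2 fun _ => false).pos
  set D := d + (Nat.log 2 P + 1) with hD
  have hDe : d + Nat.log 2 P + 2 = D + 1 := by omega
  rw [hDe] at hcon
  set lam := Nat.log 2 (D + 1) + 1 with hlam
  have h1 : D + 1 < 2 ^ lam := Nat.lt_pow_succ_log_self (by norm_num) _
  have h2 : 2 ^ (lam - 1) ≤ D + 1 := by
    rw [hlam, Nat.add_sub_cancel]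
    exact Nat.pow_log_le_self 2 (by omega)
  set i := 11 * lam + 41 with hi
  have h3 : (P + S.card) * 8 ^ i ≤ 2 ^ 156 * (P + S.card) * (D + 1) ^ 33 := by
    have h4 : 8 ^ i = 2 ^ 156 * (2 ^ (lam - 1)) ^ 33 := by
      rw [show (8 : ℕ) = 2 ^ 3 by norm_num, ← pow_mul, ← pow_mul, ← pow_add]
      congr 1
      omega
    rw [h4]
    calc (P + S.card) * (2 ^ 156 * (2 ^ (lam - 1)) ^ 33) =
        2 ^ 156 * (P + S.card) * (2 ^ (lam - 1)) ^ 33 := by
          generalize (2 ^ (lam - 1)) ^ 33 = z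
          ring
      _ ≤ _ := Nat.mul_le_mul_left _ (Nat.pow_le_pow_left h2 33)
  have h4 : (P + S.card) * 8 ^ i ≤ n / (Nat.log 2 n + 1) := by
    refine h3.trans ((Nat.le_div_iff_mul_le (by omega)).2 ?_)
    calc 2 ^ 156 * (P + S.card) * (D + 1) ^ 33 * (Nat.log 2 n + 1) =
        2 ^ 156 * (Nat.log 2 n + 1) * (P + S.card) * (D + 1) ^ 33 := by
          generalize (D + 1) ^ 33 = z
          ring
      _ ≤ n := hcon.le
  have h5 : i < Nat.log 2 n + 1 := by
    have h6 : 2 ^ i ≤ n := by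
      calc 2 ^ i ≤ 8 ^ i := Nat.pow_le_pow_left (by norm_num) i
        _ ≤ (P + S.card) * 8 ^ i := Nat.le_mul_of_pos_left _ (by omega)
        _ ≤ n / (Nat.log 2 n + 1) := h4
        _ ≤ n := Nat.div_le_self _ _
    have h7 := Nat.log_mono_right (b := 2) h6
    rw [Nat.log_pow (by norm_num)] at h7
    omega
  obtain ⟨B, σ, g1, g2, -, g4⟩ := MS_sub (S := fun n => Nat.log 2 n + 1) (K := fun _ i => 8 ^ i)
    (G := fun _ i => GA i) h5 (posA_inj (2 ^ i)) (posA_lt' i) (genF_zero _)
    (fun i' _ => Nat.pow_pos (by norm_num)) (fun i' _ y hy => by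
      unfold GA
      have e : (fun p => y (posA (2 ^ i') p)) = fun _ => false := by
        funext p
        exact hy _ (posA_lt' i' p)
      rw [e]
      exact genF_zero _) (fun y => rfl) S (N := P + S.card) h4
  have h6 := Decides.lower (genF_zero _) g2 g4 h (by omega)
  have h7 : Computes (P * (s + 1)) D 0 (genF (2 ^ i)) :=
    h6.mono le_rfl (by have := clog_succ_le P; omega) le_rfl
  exact gen_depth lam D (2 ^ i) h1 le_rfl h7.md

end Pool.Agent.CGame
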